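import Pool.Agent.V5helper19.EP.Stm
set_option autoImplicit false

namespace V5helper17.EP

theorem t_CH : V5helper19.EP.S_CH := by
  intro N r s h
  have h1 : N.choose r * r.factorial ≤ N ^ r := by
    rw [mul_comm, ← Nat.descFactorial_eq_factorial_mul_choose]
    exact Nat.descFactorial_le_pow N r
  have h2 : r.factorial ≤ r ^ r := Nat.factorial_le_pow r
  have h3 : N.choose r * r.factorial * r.factorial ≤ (s ^ 2) ^ r := calc
    _ ≤ N ^ r * r ^ r := Nat.mul_le_mul h1 h2
    _ = (N * r) ^ r := (mul_pow _ _ _).symm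
    _ ≤ (s ^ 2) ^ r := Nat.pow_le_pow_left h r
  have h4 : (s : ℝ) ^ r / r.factorial ≤ Real.exp s :=
    Real.pow_div_factorial_le_exp (s : ℝ) (by positivity) r
  have hf : (0 : ℝ) < r.factorial := by exact_mod_cast r.factorial_pos
  have h5 : (N.choose r : ℝ) ≤ ((s : ℝ) ^ r / r.factorial) ^ 2 := by
    rw [div_pow, le_div_iff₀ (by positivity)]
    have h6 : ((N.choose r * r.factorial * r.factorial : ℕ) : ℝ) ≤ (((s ^ 2) ^ r : ℕ) : ℝ) := by
      exact_mod_cast h3
    push_cast at h6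
    calc (N.choose r : ℝ) * (r.factorial : ℝ) ^ 2 = N.choose r * r.factorial * r.factorial := by ring
      _ ≤ ((s : ℝ) ^ 2) ^ r := h6
      _ = ((s : ℝ) ^ r) ^ 2 := by rw [← pow_mul, ← pow_mul, mul_comm]
  have h7 : Real.exp s ^ 2 ≤ (8 : ℝ) ^ s := by
    have e1 : Real.exp s = Real.exp 1 ^ s := by rw [← Real.exp_nat_mul, mul_one]
    rw [e1, ← pow_mul, mul_comm, pow_mul]
    apply pow_le_pow_left₀ (by positivity)
    have := Real.exp_one_lt_d9
    have h0 := Real.exp_pos 1
    nlinarith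
  have h8 : (N.choose r : ℝ) ≤ (8 : ℝ) ^ s :=
    h5.trans ((pow_le_pow_left₀ (by positivity) h4 2).trans h7)
  exact_mod_cast h8

end V5helper17.EP
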